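import Pool.Agent.H61.HB.Stmts

/-!
Row MLD of board hbg (MP_91403e_an): mild form.
-/

set_option autoImplicit false

namespace HB

theorem mld_thm (hVOC : VOCStmt) (hADC : ADCStmt) (hCON : CONStmt) : MLDStmt := by
  intro ν s T u _ hs hT
  -- the coefficientwise equivalence
  have key : Cts s T u → ∀ (j : Fin 2) (k : Z2),
      ((∀ t ∈ Set.Icc 0 T, HasDerivWithinAt (fun r => u r j k)
        (-((ν * sq k ^ 2 : ℝ) : ℂ) * u t j k - adv (u t) (u t) j k) (Set.Icc 0 T) t) ↔
      ∀ t ∈ Set.Icc 0 T, u t j k = (sgr ν t (u 0) - duh ν (fun r => adv (u r) (u r)) t) j k) := by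
    intro hc j k
    have h1 := (hCON (s - 2) T _ (hADC s T u hs hc)).1 j k
    have h2 := hVOC (ν * sq k ^ 2) T (fun r => u r j k) (fun r => -adv (u r) (u r) j k) hT h1.neg
    have h3 : ∀ t : ℝ, (sgr ν t (u 0) - duh ν (fun r => adv (u r) (u r)) t) j k =
        (Real.exp (-(ν * sq k ^ 2) * t) : ℂ) * u 0 j k +
          ∫ r in (0 : ℝ)..t, (Real.exp (-(ν * sq k ^ 2) * (t - r)) : ℂ) *
            (-adv (u r) (u r) j k) := by
      intro t
      have h4 : (∫ r in (0 : ℝ)..t, (Real.exp (-(ν * sq k ^ 2) * (t - r)) : ℂ) *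
            (-adv (u r) (u r) j k)) =
          -∫ r in (0 : ℝ)..t, (Real.exp (-(ν * sq k ^ 2) * (t - r)) : ℂ) *
            adv (u r) (u r) j k := by
        rw [← intervalIntegral.integral_neg]
        congr 1
        funext r
        ring
      rw [h4]
      rfl
    constructor
    · intro h t ht
      rw [h3]
      refine (h2.1 ?_) t ht
      intro t' ht'
      have h5 := h t' ht'
      rw [sub_eq_add_neg] at h5
      exact h5
    · intro h t ht
      have h5 := h2.2 (fun t' ht' => by
        have h6 := h t' ht'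
        rw [h3] at h6
        exact h6) t ht
      rw [sub_eq_add_neg]
      exact h5
  constructor
  · intro h
    refine ⟨h.cts, ?_⟩
    intro t ht
    funext j k
    exact (key h.cts j k).1 (fun t' ht' => h.eqn j k t' ht') t ht
  · rintro ⟨hc, h⟩
    refine ⟨hc, ?_⟩
    intro j k t ht
    exact (key hc j k).2 (fun t' ht' => by rw [← h t' ht']) t ht

end HB
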